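import Pool.Agent.H91.WMP

set_option autoImplicit false

open Pool.Agent.H91.WMP in
theorem Pool.Agent.Results.MP_479f73_an.FinDim.result
    (𝕜 : Type) [RCLike 𝕜] (E : Type) [NormedAddCommGroup E] [NormedSpace 𝕜 E] [CompleteSpace E]
    (h : ∀ (F : Type) [NormedAddCommGroup F] [NormedSpace 𝕜 F] [CompleteSpace F], HasWMP 𝕜 E F) :
    FiniteDimensional 𝕜 E :=
  main (h _) (h _)
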